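import Pool.Agent.Q45.GM.Fod

/-!
# The field of definition of the Tate classes of the surfaces `y ^ 2 = b(w ^ 2 - g(x))`

Let `k` be a field of characteristic different from `2`, with separable closure `k'`, `g` a monic
polynomial of odd degree `n` and `b` a polynomial of degree `d > 0` over `k`, such that `b(-g(x))` is
separable. The surface `X : y ^ 2 = b(w ^ 2 - g(x))` is fibred over the curve `C : s ^ 2 = b(t)` by
`t = w ^ 2 - g(x)`, and the generic fibre is the hyperelliptic curve `w ^ 2 = g(x) + t` over the function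
field `K` of `C`. Let `J` be the Jacobian of this curve, `F = k' K`, `B` the integral closure of `k'[t]`
in `F`, and `M` the `ℤ_2`-module of the classes of the continuous cocycles of `Gal(Sep F / F)` with values
in the Tate module `T_2 J` which are locally trivial at all the maximal ideals of `B`. The group of the
automorphisms of the separable closure of `F` over `K` acts on `M`.

An element of `M` is a Tate class over the finite extension `E` of `k` in `k'` if it is fixed by the
automorphisms which fix `E`. The module `M` is free of rank at most `d (n - 1)`.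

(1) The automorphisms which fix the roots of `b(-g(x))` act on the Tate classes over all the finite
extensions of `k` as involutions, which commute with each other.

(2) Let `k` be finite with `q` elements, `N > 0`, and let the roots of `b(-g(x))` be in the extension of
degree `N` of `k`. All the Tate classes over all the finite extensions of `k` are Tate classes over
the extension of degree `2 N`: if `φ` is the Frobenius and `φ ^ j m = m`, `j > 0`, then
`φ ^ (2 N) m = m`.
-/

set_option autoImplicit false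
set_option linter.all false

open Polynomial IsDedekindDomain
open scoped Classical

namespace Pool.Agent.Results.MP_8ac872_ag.BoundedFieldOfDefinition

open Pool.Agent.Y160.SL
open Pool.Agent.TH115.GD (rs ak Sep Comp)

/-- `K` is the function field of the curve `s ^ 2 = b(t)` over `k`. -/
structure IsFunctionField (k K : Type) [Field k] [Field K] [Algebra k[X] K] (b : k[X]) (s : K) :
    Prop where
  inj : Function.Injective (algebraMap k[X] K)
  sq : s ^ 2 = algebraMap k[X] K b
  gen : Subfield.closure (Set.range (algebraMap k[X] K) ∪ {s}) = ⊤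

/-- The field `F` is the extension `k' K` of `K` by the constants `k'`. -/
structure IsConstantExtension (k k' K F : Type) [Field k] [Field k'] [Algebra k k'] [Field K]
    [Algebra k[X] K] [Field F] [Algebra k'[X] F] [Algebra K F] : Prop where
  inj : Function.Injective (algebraMap k'[X] F)
  comp : ∀ p : k[X], algebraMap K F (algebraMap k[X] K p) =
    algebraMap k'[X] F (p.map (algebraMap k k'))
  gen : IntermediateField.adjoin K (Set.range ((algebraMap k'[X] F).comp C)) = ⊤

/-- The polynomial `g(x) + t` over the field `K` which contains `k[t]`. -/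
noncomputable def fPoly {k : Type} [Field k] (g : k[X]) (K : Type) [Field K] [Algebra k[X] K] : K[X] :=
  g.map ((algebraMap k[X] K).comp C) + C (algebraMap k[X] K X)

/-- The conditions on the polynomials `b` and `g` over `k`. -/
structure IsPair {k : Type} [Field k] (b g : k[X]) : Prop where
  two : (2 : k) ≠ 0
  monic : g.Monic
  odd : Odd g.natDegree
  base : 0 < b.natDegree
  separable : (b.comp (-g)).Separable

section gen

variable {K F Ω : Type} [Field K] [Field F] [Field Ω] [Algebra K F] [Algebra F Ω] [Algebra K Ω]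
  [IsScalarTower K F Ω] (f : K[X])

/-- The sequences of cochains of `Gal(Ω / F)` with values in `J(Ω)`. -/
abbrev Cochain (F Ω : Type) [Field F] [Field Ω] [Algebra K Ω] [Algebra F Ω] (f : K[X]) : Type :=
  ℕ → (Ω ≃ₐ[F] Ω) → Jac 2 f Ω

/-- `c` is the coboundary of an element `R` of the Tate module `T_2 J`. -/
def IsTateCoboundary (c : Cochain F Ω f) : Prop :=
  ∃ R : ℕ → Jac 2 f Ω, IsTM 2 2 f R ∧ ∀ n, IsCobOf 2 f (c n) (R n)

/-- The map `κ` identifies with `M` the group of the classes of the cocycles with the property `P`: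
it is additive and surjective on these cocycles, and `κ c = 0` if and only if `c` is the coboundary of
an element of the Tate module. -/
structure IsClassMap (P : Cochain F Ω f → Prop) (M : Type) [AddCommGroup M]
    (κ : Cochain F Ω f → M) : Prop where
  surj : ∀ m, ∃ c, P c ∧ κ c = m
  add : ∀ c d, P c → P d → κ (c + d) = κ c + κ d
  zero : ∀ c, P c → (κ c = 0 ↔ IsTateCoboundary f c)

/-- `d` is the transform of the cochain `c` by the automorphism `T` of `Ω` over `K`:
`d (σ) = T (c (σ'))`, where `σ' = T⁻¹ σ T`. -/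
def IsTransform (T : Ω ≃ₐ[K] Ω) (c d : Cochain F Ω f) : Prop :=
  ∀ n (σ σ' : Ω ≃ₐ[F] Ω), (∀ x, T (σ' x) = σ (T x)) → d n σ = jm 2 f (ak T) (c n σ')

/-- The endomorphism `φ` of `M` is induced by the automorphism `T` of `Ω` over `K`. -/
def IsInduced (P : Cochain F Ω f → Prop) {M : Type} (κ : Cochain F Ω f → M) (T : Ω ≃ₐ[K] Ω)
    (φ : M → M) : Prop :=
  ∀ c d, P c → IsTransform f T c d → P d ∧ κ d = φ (κ c)

end gen

section sel

variable {K F : Type} [Field K] [Field F] [Algebra K F] (B : Type) [CommRing B] [IsDedekindDomain B]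
  [Algebra B F] [IsFractionRing B F] (f : K[X])

/-- The restriction of the cochain `c` to the completion of `F` at every maximal ideal of the Dedekind
domain `B` with field of fractions `F` is a coboundary. -/
def IsSelmer (c : (Sep F ≃ₐ[F] Sep F) → Jac 2 f (Sep F)) : Prop :=
  ∀ v : HeightOneSpectrum B, LocTriv 2 f (Comp B F v) (Sep (Comp B F v)) c

/-- `c` is a continuous cocycle of `Gal(Sep F / F)` with values in the Tate module `T_2 J` which is
locally trivial at all the maximal ideals of the Dedekind domain `B` with field of fractions `F`; its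
component with values in `J[2 ^ n]` is `c n`. -/
def IsSelmerCocycle (c : Cochain F (Sep F) f) : Prop :=
  IsTC 2 2 f c ∧ ∀ n, IsSelmer B f (c n)

/-- The automorphism `T` of `Sep F` over `K` acts on the module of the classes as `φ`. -/
def ActsAs {M : Type} [AddCommGroup M] [Module ℤ_[2] M] (κ : Cochain F (Sep F) f → M)
    (T : Sep F ≃ₐ[K] Sep F) (φ : M →ₗ[ℤ_[2]] M) : Prop :=
  IsInduced f (IsSelmerCocycle B f) κ T φ

/-- The element `m` of `M` is fixed by the automorphisms `T` of `Sep F` over `K` which fix the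
constants in `E`. -/
def IsTateOver {k k' : Type} [Field k] [Field k'] [Algebra k k'] [Algebra k'[X] F] {M : Type}
    [AddCommGroup M] [Module ℤ_[2] M] (κ : Cochain F (Sep F) f → M) (E : IntermediateField k k')
    (m : M) : Prop :=
  ∀ (T : Sep F ≃ₐ[K] Sep F) (φ : M →ₗ[ℤ_[2]] M),
    (∀ x ∈ E, T (algebraMap F (Sep F) (algebraMap k'[X] F (C x))) =
      algebraMap F (Sep F) (algebraMap k'[X] F (C x))) → ActsAs B f κ T φ → φ m = m

/-- The automorphism `T` of `Sep F` over `K` fixes the roots of `h` in `k'`. -/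
def FixesRoots {k : Type} (k' : Type) [Field k] [Field k'] [Algebra k k'] [Algebra k'[X] F] (h : k[X])
    (T : Sep F ≃ₐ[K] Sep F) : Prop :=
  ∀ r : k', aeval r h = 0 → T (algebraMap F (Sep F) (algebraMap k'[X] F (C r))) =
    algebraMap F (Sep F) (algebraMap k'[X] F (C r))

/-- The automorphisms `T` and `S` which fix the roots of `h` act on the classes which are Tate classes
over a finite extension `E` of `k` as commuting involutions. -/
def CommutingInvolutions {k : Type} (k' : Type) [Field k] [Field k'] [Algebra k k'] [Algebra k'[X] F]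
    {M : Type} [AddCommGroup M] [Module ℤ_[2] M] (κ : Cochain F (Sep F) f → M) (h : k[X]) : Prop :=
  ∀ (E : IntermediateField k k') (m : M), FiniteDimensional k E → IsTateOver B f κ E m →
    ∀ (S T : Sep F ≃ₐ[K] Sep F) (ψ φ : M →ₗ[ℤ_[2]] M), FixesRoots k' h S → FixesRoots k' h T →
      ActsAs B f κ S ψ → ActsAs B f κ T φ → φ (φ m) = m ∧ ψ (φ m) = φ (ψ m)

/-- The module `M` of the classes is free of rank at most `r`, all the automorphisms act on it, and it
has the property `P`. -/
def Concl (r : ℕ) (P : ∀ (M : Type) [AddCommGroup M] [Module ℤ_[2] M]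
    (_ : Cochain F (Sep F) f → M), Prop) : Prop :=
  ∃ (M : Type) (_ : AddCommGroup M) (_ : Module ℤ_[2] M) (_ : Module.Finite ℤ_[2] M)
    (_ : Module.Free ℤ_[2] M) (κ : Cochain F (Sep F) f → M),
    IsClassMap f (IsSelmerCocycle B f) M κ ∧ Module.finrank ℤ_[2] M ≤ r ∧
    (∀ T : Sep F ≃ₐ[K] Sep F, ∃ φ : M →ₗ[ℤ_[2]] M, ActsAs B f κ T φ) ∧ P M κ

end sel

/-- (1) All fields. -/
def AllFields : Prop :=
  ∀ (k k' K F B : Type) [Field k] [Field k'] [Algebra k k'] [IsSepClosure k k'] [Field K]
    [Algebra k[X] K] [Field F] [Algebra k'[X] F] [Algebra K F] [CommRing B] [IsDedekindDomain B]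
    [Algebra k'[X] B] [Algebra B F] [IsScalarTower k'[X] B F] [IsFractionRing B F]
    [IsIntegralClosure B k'[X] F] (b g : k[X]) (s : K), IsPair b g →
    IsFunctionField k K b s → IsConstantExtension k k' K F →
      Concl (F := F) B (fPoly g K) (b.natDegree * (g.natDegree - 1)) fun M _ _ κ =>
        CommutingInvolutions B (fPoly g K) k' κ (b.comp (-g))

/-- (2) Finite fields. -/
def FiniteFields : Prop :=
  ∀ (k k' K F B : Type) [Field k] [Finite k] [Field k'] [Algebra k k'] [IsSepClosure k k'] [Field K]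
    [Algebra k[X] K] [Field F] [Algebra k'[X] F] [Algebra K F] [CommRing B] [IsDedekindDomain B]
    [Algebra k'[X] B] [Algebra B F] [IsScalarTower k'[X] B F] [IsFractionRing B F]
    [IsIntegralClosure B k'[X] F] (b g : k[X]) (s : K) (N : ℕ), IsPair b g → 0 < N →
    (∀ r : k', aeval r (b.comp (-g)) = 0 → r ^ (Nat.card k ^ N) = r) →
    IsFunctionField k K b s → IsConstantExtension k k' K F →
      Concl (F := F) B (fPoly g K) (b.natDegree * (g.natDegree - 1)) fun M _ _ κ =>
        ∀ (T : Sep F ≃ₐ[K] Sep F) (φ : M →ₗ[ℤ_[2]] M),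
          (∀ x : k', T (algebraMap F (Sep F) (algebraMap k'[X] F (C x))) =
            algebraMap F (Sep F) (algebraMap k'[X] F (C (x ^ Nat.card k)))) →
          ActsAs B (fPoly g K) κ T φ → ∀ (m : M) (j : ℕ), 0 < j → (φ ^ j) m = m →
            (φ ^ (2 * N)) m = m

open Pool.Agent.Q45.GM (IsHE fin_of SelT clsOf clsOf_surj clsOf_add clsOf_zero exists_lift
  stp_of WBal RT fb Gal rho rho_cls rho_mul isInvt card_eq)

section conv

variable {K F : Type} [Field K] [Field F] [Algebra K F] {B : Type} [CommRing B] [IsDedekindDomain B]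
  [Algebra B F] [IsFractionRing B F] {f : K[X]}

theorem toTC {c : Cochain F (Sep F) f} (h : IsTC 2 2 f c) : Pool.Agent.Y160.SQ.IsTC 2 2 f c :=
  ⟨fun n => ⟨(h.coc n).lc, (h.coc n).mul⟩, h.zero, h.step⟩

theorem ofTC {c : Cochain F (Sep F) f} (h : Pool.Agent.Y160.SQ.IsTC 2 2 f c) : IsTC 2 2 f c :=
  ⟨fun n => ⟨(h.coc n).lc, (h.coc n).mul⟩, h.zero, h.step⟩

/-- The classes of the cocycles. -/
theorem classMap : IsClassMap f (IsSelmerCocycle B f) (SelT (F := F) 2 B f 2) (clsOf B f) where
  surj m := by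
    obtain ⟨c, ⟨h1, h2⟩, h3⟩ := clsOf_surj B f m
    exact ⟨c, ⟨ofTC h1, h2⟩, h3⟩
  add c d hc hd := clsOf_add B f (toTC hc.1) hc.2 (toTC hd.1) hd.2
  zero c hc := by
    refine (clsOf_zero B f (toTC hc.1) hc.2).trans ⟨?_, ?_⟩
    · rintro ⟨R, hR, h⟩
      exact ⟨R, ⟨hR.zero, hR.step⟩, h⟩
    · rintro ⟨R, hR, h⟩
      exact ⟨R, ⟨hR.zero, hR.step⟩, h⟩

end conv


/-- The common part of the proofs. -/
theorem common (k k' K F B : Type) [Field k] [Field k'] [Algebra k k'] [hk' : IsSepClosure k k']
    [Field K] [Algebra k[X] K] [Field F] [Algebra k'[X] F] [Algebra K F] [CommRing B]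
    [IsDedekindDomain B] [Algebra k'[X] B] [Algebra B F] [IsScalarTower k'[X] B F]
    [IsFractionRing B F] [IsIntegralClosure B k'[X] F] (b g : k[X]) (s : K) (hp : IsPair b g)
    (hK : IsFunctionField k K b s) (hF : IsConstantExtension k k' K F)
    (P : ∀ (M : Type) [AddCommGroup M] [Module ℤ_[2] M]
      (_ : Cochain F (Sep F) (fPoly g K) → M), Prop)
    (hP : ∀ [IsSepClosed k'] [Algebra.IsSeparable k k'] (hF' : Pool.Agent.Q45.TW.IsGeom k k' K F)
      (hS : Pool.Agent.Q45.GM.Stp (b.map (algebraMap k k')) (g.map (algebraMap k k'))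
        (algebraMap K F s) (fPoly g K)) (a : Sep F) (ha : Pool.Agent.Y160.SQ.Rt (fPoly g K) a)
      [Module.Finite ℤ_[2] (SelT (F := F) 2 B (fPoly g K) 2)]
      [Module.Free ℤ_[2] (SelT (F := F) 2 B (fPoly g K) 2)],
      (∀ (T : Sep F ≃ₐ[K] Sep F) (φ : SelT (F := F) 2 B (fPoly g K) 2 →ₗ[ℤ_[2]]
        SelT (F := F) 2 B (fPoly g K) 2), ActsAs B (fPoly g K) (clsOf B (fPoly g K)) T φ ↔
        φ = rho B hF' (fPoly g K) T) →
      P (SelT (F := F) 2 B (fPoly g K) 2) (clsOf B (fPoly g K))) :
    Concl (F := F) B (fPoly g K) (b.natDegree * (g.natDegree - 1)) P := by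
  haveI : IsSepClosed k' := hk'.sep_closed
  haveI : Algebra.IsSeparable k k' := hk'.separable
  have hK' : IsHE k K b s := ⟨hK.inj, hK.sq, hK.gen⟩
  have hF' : Pool.Agent.Q45.TW.IsGeom k k' K F := ⟨hF.inj, hF.comp, hF.gen⟩
  have h12 := fin_of (B := B) hp.two hp.monic hp.odd hp.base hp.separable hK' hF'
  haveI h1 : Module.Finite ℤ_[2] (SelT (F := F) 2 B (fPoly g K) 2) := h12.1
  haveI h2 : Module.Free ℤ_[2] (SelT (F := F) 2 B (fPoly g K) 2) := h12.2
  have hS : Pool.Agent.Q45.GM.Stp (b.map (algebraMap k k')) (g.map (algebraMap k k'))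
    (algebraMap K F s) (fPoly g K) := stp_of hp.two hp.monic hp.odd hp.base hp.separable hK' hF'
  obtain ⟨a, ha⟩ := Pool.Agent.Y160.SQ.exists_rt (Ω := Sep F) hS.good
  have hI := isInvt B hp.two (Pool.Agent.Q45.GM.bsep_of hp.odd.pos hp.separable) hp.base hK' hF' hS ha
  have hcard := card_eq (k' := k') hp.monic hp.odd hp.separable hp.base
  have hind : ∀ (T : Sep F ≃ₐ[K] Sep F) (φ : SelT (F := F) 2 B (fPoly g K) 2 →ₗ[ℤ_[2]]
      SelT (F := F) 2 B (fPoly g K) 2), ActsAs B (fPoly g K) (clsOf B (fPoly g K)) T φ ↔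
        φ = rho B hF' (fPoly g K) T := by
    intro T φ
    constructor
    · intro h
      refine LinearMap.ext fun m => ?_
      obtain ⟨c, ⟨hc, hcs⟩, rfl⟩ := clsOf_surj B (fPoly g K) m
      have hcj := Pool.Agent.Q45.GM.lf_T B hF' (fPoly g K) T
      have hd : IsTransform (fPoly g K) T c (fun n σ => jm 2 (fPoly g K) (ak T)
          (c n ((Pool.Agent.Q45.GM.lf B hF' (fPoly g K) T).conj σ))) := by
        intro n σ σ' hσ
        have h5 : (Pool.Agent.Q45.GM.lf B hF' (fPoly g K) T).conj σ = σ' := by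
          refine AlgEquiv.ext fun x => T.injective ?_
          rw [hσ]
          have h6 := (Pool.Agent.Q45.GM.lf B hF' (fPoly g K) T).T_conj σ x
          rwa [hcj] at h6
        have h8 : ∀ ρ : Sep F ≃ₐ[F] Sep F, ρ = σ' →
            jm 2 (fPoly g K) (ak T) (c n ρ) = jm 2 (fPoly g K) (ak T) (c n σ') := by
          rintro ρ rfl
          rfl
        exact h8 _ h5
      have h7 := (h c _ ⟨ofTC hc, hcs⟩ hd).2
      rw [← h7]
      exact (rho_cls B hF' (fPoly g K) T hc hcs hd).2
    · rintro rfl c d hc hd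
      obtain ⟨⟨h4, h5⟩, h6⟩ := rho_cls B hF' (fPoly g K) T (toTC hc.1) hc.2 hd
      exact ⟨⟨ofTC h4, h5⟩, h6⟩
  refine ⟨SelT (F := F) 2 B (fPoly g K) 2, inferInstance, inferInstance, h1, h2,
    clsOf B (fPoly g K), classMap, ?_, fun T => ⟨rho B hF' (fPoly g K) T, (hind T _).2 rfl⟩,
    hP hF' hS a ha hind⟩
  have h3 := hI.rank_le
  rw [hcard] at h3
  exact h3

theorem allFields : AllFields := by
  intro k k' K F B _ _ _ _ _ _ _ _ _ _ _ _ _ _ _ _ b g s hp hK hF
  refine common k k' K F B b g s hp hK hF _ ?_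
  intro _ _ hF' hS a ha _ _ hind E m hE hm S T ψ φ hfS hfT hψ hφ
  rw [(hind S ψ).1 hψ, (hind T φ).1 hφ]
  exact Pool.Agent.Q45.GM.finite_orbit B hF' hp.separable hS ha E m
    (fun T hT => hm T _ hT ((hind T _).2 rfl)) S T hfS hfT

theorem finiteFields : FiniteFields := by
  intro k k' K F B _ _ _ _ _ _ _ _ _ _ _ _ _ _ _ _ _ b g s N hp hN hroots hK hF
  refine common k k' K F B b g s hp hK hF _ ?_
  intro _ _ hF' hS a ha _ _ hind T φ hT hφ m j hj hm
  rw [(hind T φ).1 hφ] at hm ⊢
  clear hφ φ
  obtain ⟨M, rfl⟩ : ∃ M, N = M + 1 := ⟨N - 1, by omega⟩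
  have hpow : ∀ (i : ℕ) (x : k'), (T ^ i) (Pool.Agent.Q45.GM.cs k' F x) =
      Pool.Agent.Q45.GM.cs k' F (x ^ (Nat.card k ^ i)) := by
    intro i
    induction i with
    | zero => intro x; rw [pow_zero, pow_zero, pow_one]; rfl
    | succ i ih =>
      intro x
      rw [pow_succ', AlgEquiv.mul_apply, ih]
      have h1 := hT (x ^ (Nat.card k ^ i))
      rw [← pow_mul, ← pow_succ] at h1
      exact h1
  have hfix : ∀ r : k', aeval r (b.comp (-g)) = 0 →
      (T ^ (M + 1)) (Pool.Agent.Q45.GM.cs k' F r) = Pool.Agent.Q45.GM.cs k' F r := by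
    intro r hr
    rw [hpow, hroots r hr]
  have hr1 := Pool.Agent.Q45.GM.rho_pow B hF' (fPoly g K) T
  obtain ⟨i, rfl⟩ : ∃ i, j = i + 1 := ⟨j - 1, by omega⟩
  -- the power of `T ^ (M + 1)` fixes `m`
  have hmm : (rho B hF' (fPoly g K) (T ^ (M + 1)) ^ (i + 1)) m = m := by
    rw [← Pool.Agent.Q45.GM.rho_pow]
    have h1 : (T ^ (M + 1)) ^ (i + 1) = (T ^ (i + 1)) ^ (M + 1) := by rw [← pow_mul, ← pow_mul, mul_comm]
    rw [h1, Pool.Agent.Q45.GM.rho_pow]
    have h3 : rho B hF' (fPoly g K) (T ^ (i + 1)) m = m := by rw [hr1]; exact hm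
    have h4 : ∀ l : ℕ, (rho B hF' (fPoly g K) (T ^ (i + 1)) ^ l) m = m := by
      intro l
      induction l with
      | zero => rfl
      | succ l ih =>
        have h5 : (rho B hF' (fPoly g K) (T ^ (i + 1)) ^ (l + 1)) m =
            rho B hF' (fPoly g K) (T ^ (i + 1)) ((rho B hF' (fPoly g K) (T ^ (i + 1)) ^ l) m) := by
          rw [pow_succ' (rho B hF' (fPoly g K) (T ^ (i + 1))) l]
          rfl
        rw [h5, ih, h3]
    exact h4 _
  have h := Pool.Agent.Q45.GM.rho_sq B hF' hp.separable hS ha (T ^ (M + 1)) hfix m (i + 1) hj hmm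
  rw [← Pool.Agent.Q45.GM.rho_mul, ← pow_add] at h
  have h1 : M + 1 + (M + 1) = (2 * M + 1) + 1 := by ring
  rw [h1, hr1] at h
  have h3 : 2 * (M + 1) = 2 * M + 1 + 1 := by ring
  rw [h3]
  exact h

/-- (1) All fields. (2) Finite fields. -/
theorem result : AllFields ∧ FiniteFields := ⟨allFields, finiteFields⟩

end Pool.Agent.Results.MP_8ac872_ag.BoundedFieldOfDefinition
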