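import Pool.Agent.Q282.PB.Tail

/-!
# The multiplicities of fixed Frobenius eigenvalues are bounded in the mean

Let `F` be a finite field with `q` elements, `G` a set of polynomials in `x_1, ..., x_s` and `u = (u_i)`, `i` in the finite set
`ι`, over `F` (a family of varieties over the affine space, with fibres `G_u`; for families of curves the `V_f` are surfaces), and
`Z` a set of polynomials in `u`, with `U` the open set where some element of `Z` is not zero. For a tuple `f` of polynomials in one
variable `t` let `V_f` be the variety of the `(t, x)` with `x` in the fibre over `f(t)`.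
-/

set_option autoImplicit false

namespace Pool.Agent.Results.MP_8ac872_ag.MultiplicitiesInTheMean

open Finset Polynomial
open Q282PB (IsFamily MapsTo IsSpectrum)

/-- The number of the pairs `(j, a)`, `a` in the multiset `α`, with `e j * a` at distance at most `ρ` from `γ`. -/
noncomputable def pairs {J : Type} [Fintype J] (α : Multiset ℂ) (e : J → ℂ) (γ : ℂ) (ρ : ℝ) : ℕ :=
  open Classical in ∑ j, Multiset.card (α.filter fun a => ‖e j * a - γ‖ ≤ ρ)

/-- **Main theorem.** Suppose that over `U` the numbers of points of the fibres over a field with `q ^ m` elements differ from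
`c(m)` by at most `C q ^ (m w / 2)`, on average by at most `C q ^ (m (w - 1) / 2)`. Let `e_j`, `j` in the finite set `J`, be of
absolute value one, `γ` of absolute value `R = q ^ ((w + 1) / 2)`, `n ≥ 1` and `g` a tuple of polynomials.

(1) For all `K ≥ 1`, for all tuples `t` of polynomials of degree less than `n` but at most a proportion `2 / K ^ K`: if `f = g + t`
maps the line to `U` and `V_f` has at most `κ n` eigenvalues `α` of size `R` and at most `κ n` others, then there are at most
`100 (κ + C) K #J` pairs `(j, a)` with `e_j a` at distance at most `2 K R / n` from `γ`.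

(2) For all `σ ≥ 0` the average of `exp (σ N / (100 (κ + C) #J))`, where `N` is the number of the pairs `(j, a)` with `e_j a` at
distance at most `2 R / n` from `γ`, is at most `3 exp (σ + exp σ)`. -/
theorem result {F : Type} [Field F] [Fintype F] {s : ℕ} {ι : Type} [Fintype ι] (G : Set (MvPolynomial (Fin s ⊕ ι) F))
    (Z : Set (MvPolynomial ι F)) (w : ℕ) (c : ℕ → ℝ) (C κ : ℝ) (hC : 0 < C) (hκ : 0 ≤ κ) (hfam : IsFamily G Z w c C)
    (g : ι → F[X]) (n : ℕ) (hn : 1 ≤ n) {J : Type} [Fintype J] (e : J → ℂ) (he : ∀ j, ‖e j‖ = 1)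
    (γ : ℂ) (hγ : ‖γ‖ = Real.sqrt (Fintype.card F) ^ (w + 1)) :
    (∀ K : ℕ, 1 ≤ K →
      (Nat.card {t : ι → degreeLT F n // MapsTo Z (fun i => g i + (t i).1) ∧
        ∃ α : Multiset ℂ, IsSpectrum G w c (fun i => g i + (t i).1) (κ * n) α ∧
          100 * (κ + C) * K * Fintype.card J < pairs α e γ (2 * K * Real.sqrt (Fintype.card F) ^ (w + 1) / n)} : ℝ) ≤
        2 / (K : ℝ) ^ K * Nat.card (ι → degreeLT F n)) ∧
    ∀ (α : (ι → degreeLT F n) → Multiset ℂ) (σ : ℝ), 0 ≤ σ →
      ∑ᶠ t ∈ {t : ι → degreeLT F n | MapsTo Z (fun i => g i + (t i).1) ∧ IsSpectrum G w c (fun i => g i + (t i).1) (κ * n) (α t)},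
        Real.exp (σ * (pairs (α t) e γ (2 * Real.sqrt (Fintype.card F) ^ (w + 1) / n) / (100 * (κ + C) * Fintype.card J))) ≤
      3 * Real.exp (σ + Real.exp σ) * Nat.card (ι → degreeLT F n) := by
  classical
  refine ⟨fun K hK => ?_, fun α σ hσ => ?_⟩
  · have h1 := Q282PB.tails G Z w c C κ hC hκ hfam g n K hn hK e he γ hγ
    rw [Nat.card_eq_fintype_card, Nat.card_eq_fintype_card, Fintype.card_subtype]
    refine le_trans (Nat.cast_le.2 (card_le_card ?_)) h1
    intro t ht
    rw [mem_filter] at ht ⊢
    exact ht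
  · have h1 := Q282PB.exps G Z w c C κ hC hκ hfam g n hn e he γ hγ α σ hσ
    rw [Nat.card_eq_fintype_card]
    refine le_trans (le_of_eq ?_) h1
    rw [finsum_mem_eq_finite_toFinset_sum _ (Set.toFinite _)]
    refine sum_congr ?_ fun _ _ => rfl
    ext t
    rw [Set.Finite.mem_toFinset, mem_filter]
    exact ⟨fun h => ⟨mem_univ _, h⟩, fun h => h.2⟩

end Pool.Agent.Results.MP_8ac872_ag.MultiplicitiesInTheMean
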