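import Pool.Agent.Q226.SCP.TateMain

set_option autoImplicit false

/-!
# The Tate conjecture for divisors over finite fields and simply connected surfaces
-/

namespace Pool.Agent.Results.MP_8ac872_ag.SimplyConnectedSurfaces

open Pool.Agent.Q226.SCP

/-- Let `p` and `ℓ ≠ p` be prime numbers. The Tate conjecture for divisors (both assertions) holds at
`ℓ` for all smooth projective geometrically connected varieties over all finite fields of
characteristic `p` if and only if it holds for all geometrically simply connected smooth projective
surfaces over these fields. -/
theorem result (E : Type) [Field E] [CharZero E] (G : GeoP E) (T : DivisorClasses G)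
    (F : TateFacts T) :
    (∀ X, G.Smooth X → T.Conj X) ↔ ∀ S, G.Surface S → G.SC S → T.Conj S :=
  F.conj_iff

end Pool.Agent.Results.MP_8ac872_ag.SimplyConnectedSurfaces
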